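import Mathlib
import Pool.Agent.Helper42.DB.Goals2

set_option autoImplicit false

namespace Pool.Agent.Helper42.DB.PkDB

open Set Filter Topology

theorem geo1 (r : ℝ) (h0 : 0 ≤ r) (h1 : r < 1) (n : ℕ) :
    ∑ i ∈ Finset.range n, r ^ i ≤ 1 / (1 - r) := by
  have := (summable_geometric_of_lt_one h0 h1).sum_le_tsum (Finset.range n)
    (fun i _ => pow_nonneg h0 i)
  rwa [tsum_geometric_of_lt_one h0 h1, ← one_div] at this

theorem geo2 (r : ℝ) (h0 : 0 ≤ r) (h1 : r < 1) (t n : ℕ) :
    ∑ i ∈ Finset.Ico t n, r ^ i ≤ r ^ t * (1 / (1 - r)) := by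
  rw [Finset.sum_Ico_eq_sum_range]
  simp_rw [pow_add]
  rw [← Finset.mul_sum]
  exact mul_le_mul_of_nonneg_left (geo1 r h0 h1 _) (pow_nonneg h0 t)

theorem win_inv {α : Type} {P : ℕ → (ℕ → α) → Prop} {Sg : ℕ → (ℕ → α) → Prop} {τ N M : ℕ}
    {w : ℕ → α} (H : Win P Sg τ N M w) :
    (M = 0 ∧ P N w) ∨ ∃ g a N' M', N = g + (2 * a + 1) + N' ∧ M = 2 * a + 1 + M' ∧ P g w ∧
      τ ≤ a ∧ Sg a (sh g w) ∧ Win P Sg τ N' M' (sh (g + (2 * a + 1)) w) := by
  cases H with
  | nil _ _ h => exact Or.inl ⟨rfl, h⟩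
  | cons g a N' M' _ h1 h2 h3 h4 => exact Or.inr ⟨g, a, N', M', rfl, rfl, h1, h2, h3, h4⟩

theorem sh_sh {α : Type} (m n : ℕ) (w : ℕ → α) : sh m (sh n w) = sh (n + m) w := by
  funext k; simp only [sh]; congr 1; ring

theorem thm : G_CAT → G_CUP → G_DB := by
  intro hCAT hCUP α _ L Sg h C h0 hRate _ hSg ζ hζ
  obtain ⟨K, hK1, hK⟩ := hRate.2 ζ hζ
  have hKpos : 0 < K := lt_of_lt_of_le one_pos hK1
  set C' := max C 0 with hC'
  have hC0 : 0 ≤ C' := le_max_right _ _
  set r := Real.exp (-ζ) with hr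
  set ρ := Real.exp (-(3 * ζ)) with hρ
  have hr0 : 0 ≤ r := (Real.exp_pos _).le
  have hr1 : r < 1 := Real.exp_lt_one_iff.mpr (by linarith)
  have hρ0 : 0 ≤ ρ := (Real.exp_pos _).le
  have hρ1 : ρ < 1 := Real.exp_lt_one_iff.mpr (by linarith)
  have hA' : ∀ a : ℕ, (cnt (2 * a + 1) (Sg a) : ℝ) ≤
      2 * C' * K * Real.exp ((h + ζ) * (a + 1)) := by
    intro a
    refine (hSg a).trans ?_
    have e1 : (L.A a : ℝ) ≤ K * Real.exp ((h + ζ) * (a + 1)) := by
      refine (hK a).trans ?_
      apply mul_le_mul_of_nonneg_left _ hKpos.le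
      apply Real.exp_le_exp.mpr
      have : 0 ≤ h + ζ := by linarith
      nlinarith
    have e2 : (L.A (a + 1) : ℝ) ≤ K * Real.exp ((h + ζ) * (a + 1)) := by
      have := hK (a + 1)
      push_cast at this
      exact this
    have e3 : (0 : ℝ) ≤ L.A a + L.A (a + 1) := by positivity
    calc C * ((L.A a : ℝ) + L.A (a + 1)) ≤ C' * ((L.A a : ℝ) + L.A (a + 1)) :=
          mul_le_mul_of_nonneg_right (le_max_left _ _) e3
      _ ≤ C' * (2 * (K * Real.exp ((h + ζ) * (a + 1)))) :=
          mul_le_mul_of_nonneg_left (by linarith) hC0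
      _ = _ := by ring
  obtain ⟨τ, hτ⟩ : ∃ τ : ℕ, K * (1 / (1 - r)) * (2 * C' * K * Real.exp (h / 4) *
      (ρ ^ τ * (1 / (1 - ρ)))) ≤ 1 := by
    have ht : Tendsto (fun τ : ℕ => K * (1 / (1 - r)) * (2 * C' * K * Real.exp (h / 4) *
        (ρ ^ τ * (1 / (1 - ρ))))) atTop (𝓝 (K * (1 / (1 - r)) * (2 * C' * K * Real.exp (h / 4) *
        (0 * (1 / (1 - ρ)))))) := by
      apply Tendsto.const_mul
      apply Tendsto.const_mul
      apply Tendsto.mul_const
      exact tendsto_pow_atTop_nhds_zero_of_lt_one hρ0 hρ1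
    simp only [zero_mul, mul_zero] at ht
    obtain ⟨τ, hτ⟩ := (ht.eventually (gt_mem_nhds one_pos)).exists
    exact ⟨τ, hτ.le⟩
  refine ⟨τ, K, ?_⟩
  have main : ∀ M N : ℕ, (cnt N (Win L.P Sg τ N M) : ℝ) ≤
      K * Real.exp ((h + 2 * ζ) * N - h / 4 * M) := by
    intro M
    induction M using Nat.strong_induction_on with
    | _ M ih =>
    intro N
    rcases Nat.eq_zero_or_pos M with hM | hM
    · subst hM
      have h1 : cnt N (Win L.P Sg τ N 0) ≤ L.A N := by
        have := hCUP α Unit N {()} (fun _ => L.P N) (Win L.P Sg τ N 0) (by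
          intro w hw
          rcases win_inv hw with h | ⟨g, a, N', M', _, h2, _⟩
          · exact ⟨(), Finset.mem_singleton_self _, h.2⟩
          · omega)
        simpa [Lang.A] using this
      calc (cnt N (Win L.P Sg τ N 0) : ℝ) ≤ L.A N := by exact_mod_cast h1
        _ ≤ K * Real.exp ((h + ζ) * N) := hK N
        _ ≤ _ := by
          apply mul_le_mul_of_nonneg_left _ hKpos.le
          apply Real.exp_le_exp.mpr
          have : (0 : ℝ) ≤ N := Nat.cast_nonneg N
          push_cast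
          nlinarith
    · let s : Finset (ℕ × ℕ) := (Finset.range (N + 1) ×ˢ Finset.Ico τ (N + 1)).filter
        (fun x => x.1 + (2 * x.2 + 1) ≤ N ∧ 2 * x.2 + 1 ≤ M)
      let Q : ℕ × ℕ → (ℕ → α) → Prop := fun x w => L.P x.1 w ∧
        (Sg x.2 (sh x.1 w) ∧ Win L.P Sg τ (N - (x.1 + (2 * x.2 + 1))) (M - (2 * x.2 + 1))
          (sh (2 * x.2 + 1) (sh x.1 w)))
      have h1 : cnt N (Win L.P Sg τ N M) ≤ ∑ x ∈ s, cnt N (Q x) := by
        apply hCUP
        intro w hw
        rcases win_inv hw with h | ⟨g, a, N', M', e1, e2, h3, h4, h5, h6⟩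
        · omega
        · refine ⟨(g, a), ?_, h3, h5, ?_⟩
          · simp only [s, Finset.mem_filter, Finset.mem_product, Finset.mem_range, Finset.mem_Ico]
            omega
          · have e3 : N - (g + (2 * a + 1)) = N' := by omega
            have e4 : M - (2 * a + 1) = M' := by omega
            simp only [e3, e4, sh_sh]
            exact h6
      have h2 : ∀ x ∈ s, (cnt N (Q x) : ℝ) ≤ K * Real.exp ((h + 2 * ζ) * N - h / 4 * M) *
          ((K * r ^ x.1) * (2 * C' * K * Real.exp (h / 4) * ρ ^ x.2)) := by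
        intro x hx
        simp only [s, Finset.mem_filter, Finset.mem_product, Finset.mem_range,
          Finset.mem_Ico] at hx
        obtain ⟨⟨_, hx2⟩, hx3, hx4⟩ := hx
        obtain ⟨g, a⟩ := x
        simp only at hx2 hx3 hx4 ⊢
        obtain ⟨N', hN'⟩ : ∃ N', N = g + ((2 * a + 1) + N') := ⟨N - (g + (2 * a + 1)), by omega⟩
        obtain ⟨M', hM'⟩ : ∃ M', M = 2 * a + 1 + M' := ⟨M - (2 * a + 1), by omega⟩
        have e3 : N - (g + (2 * a + 1)) = N' := by omega
        have e4 : M - (2 * a + 1) = M' := by omega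
        have c1 : cnt N (Q (g, a)) ≤ L.A g * (cnt (2 * a + 1) (Sg a) *
            cnt N' (Win L.P Sg τ N' M')) := by
          have := hCAT α g ((2 * a + 1) + N') (L.P g)
            (fun v => Sg a v ∧ Win L.P Sg τ N' M' (sh (2 * a + 1) v))
          have h' := hCAT α (2 * a + 1) N' (Sg a) (Win L.P Sg τ N' M')
          simp only [Q, e3, e4]
          rw [← hN'] at this
          exact this.trans (Nat.mul_le_mul_left _ h')
        have c2 : (cnt N (Q (g, a)) : ℝ) ≤ L.A g * (cnt (2 * a + 1) (Sg a) *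
            cnt N' (Win L.P Sg τ N' M')) := by exact_mod_cast c1
        refine c2.trans ?_
        have c3 := ih M' (by omega) N'
        have c4 : (cnt (2 * a + 1) (Sg a) : ℝ) * cnt N' (Win L.P Sg τ N' M') ≤
            (2 * C' * K * Real.exp ((h + ζ) * (a + 1))) *
            (K * Real.exp ((h + 2 * ζ) * N' - h / 4 * M')) :=
          mul_le_mul (hA' a) c3 (Nat.cast_nonneg _) (by positivity)
        refine (mul_le_mul (hK g) c4 (by positivity) (by positivity)).trans ?_
        have c5 : K * Real.exp ((h + ζ) * g) * ((2 * C' * K * Real.exp ((h + ζ) * (a + 1))) *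
            (K * Real.exp ((h + 2 * ζ) * N' - h / 4 * M'))) =
            (K * K * (2 * C' * K)) * Real.exp ((h + ζ) * g + (h + ζ) * (a + 1) +
              ((h + 2 * ζ) * N' - h / 4 * M')) := by
          rw [Real.exp_add, Real.exp_add]; ring
        have c6 : K * Real.exp ((h + 2 * ζ) * N - h / 4 * M) *
            ((K * r ^ g) * (2 * C' * K * Real.exp (h / 4) * ρ ^ a)) =
            (K * K * (2 * C' * K)) * Real.exp (((h + 2 * ζ) * N - h / 4 * M) + g * (-ζ) + h / 4 +
              a * (-(3 * ζ))) := by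
          rw [Real.exp_add, Real.exp_add, Real.exp_add, Real.exp_nat_mul, Real.exp_nat_mul]
          ring
        rw [c5, c6]
        apply mul_le_mul_of_nonneg_left _ (by positivity)
        apply Real.exp_le_exp.mpr
        have f1 : (N : ℝ) = g + ((2 * a + 1) + N') := by rw [hN']; push_cast; ring
        have f2 : (M : ℝ) = 2 * a + 1 + M' := by rw [hM']; push_cast; ring
        rw [f1, f2]
        have f3 : (0 : ℝ) ≤ a := Nat.cast_nonneg a
        nlinarith [mul_nonneg h0 f3, hζ]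
      have h3 : (∑ x ∈ s, (K * r ^ x.1) * (2 * C' * K * Real.exp (h / 4) * ρ ^ x.2)) ≤ 1 := by
        calc (∑ x ∈ s, (K * r ^ x.1) * (2 * C' * K * Real.exp (h / 4) * ρ ^ x.2))
            ≤ ∑ x ∈ Finset.range (N + 1) ×ˢ Finset.Ico τ (N + 1),
              (K * r ^ x.1) * (2 * C' * K * Real.exp (h / 4) * ρ ^ x.2) := by
              apply Finset.sum_le_sum_of_subset_of_nonneg (Finset.filter_subset _ _)
              intro x _ _
              positivity
          _ = (∑ g ∈ Finset.range (N + 1), K * r ^ g) *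
              (∑ a ∈ Finset.Ico τ (N + 1), 2 * C' * K * Real.exp (h / 4) * ρ ^ a) := by
              rw [Finset.sum_mul_sum, Finset.sum_product]
          _ ≤ (K * (1 / (1 - r))) * (2 * C' * K * Real.exp (h / 4) *
              (ρ ^ τ * (1 / (1 - ρ)))) := by
              rw [← Finset.mul_sum, ← Finset.mul_sum]
              apply mul_le_mul
              · exact mul_le_mul_of_nonneg_left (geo1 r hr0 hr1 _) hKpos.le
              · exact mul_le_mul_of_nonneg_left (geo2 ρ hρ0 hρ1 _ _) (by positivity)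
              · exact mul_nonneg (by positivity)
                  (Finset.sum_nonneg fun i _ => pow_nonneg hρ0 i)
              · exact mul_nonneg hKpos.le (one_div_nonneg.mpr (by linarith))
          _ ≤ 1 := hτ
      calc (cnt N (Win L.P Sg τ N M) : ℝ) ≤ ∑ x ∈ s, (cnt N (Q x) : ℝ) := by exact_mod_cast h1
        _ ≤ ∑ x ∈ s, K * Real.exp ((h + 2 * ζ) * N - h / 4 * M) *
          ((K * r ^ x.1) * (2 * C' * K * Real.exp (h / 4) * ρ ^ x.2)) := Finset.sum_le_sum h2
        _ = K * Real.exp ((h + 2 * ζ) * N - h / 4 * M) *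
          ∑ x ∈ s, ((K * r ^ x.1) * (2 * C' * K * Real.exp (h / 4) * ρ ^ x.2)) := by
            rw [Finset.mul_sum]
        _ ≤ K * Real.exp ((h + 2 * ζ) * N - h / 4 * M) * 1 :=
            mul_le_mul_of_nonneg_left h3 (by positivity)
        _ = _ := mul_one _
  intro N M
  exact main M N

end Pool.Agent.Helper42.DB.PkDB
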